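import Pool.Agent.W988.WD.Defs

/-!
WD-FIN: the case where `N` has a faithful normal tracial state.
-/

set_option autoImplicit false
open scoped InnerProductSpace Topology ComplexOrder
open Filter

namespace Pool.Agent.W699.WD
open Pool.Agent.W988.WD

variable {H : Type} [NormedAddCommGroup H] [InnerProductSpace ℂ H] [CompleteSpace H]

theorem smul_mem_vn (M : VonNeumannAlgebra H) (c : ℂ) {x : H →L[ℂ] H} (hx : x ∈ M) : c • x ∈ M :=
  M.toStarSubalgebra.smul_mem hx c

theorem sqrt_mem_vn (M : VonNeumannAlgebra H) {h : H →L[ℂ] H} (h1 : h ∈ M) : CFC.sqrt h ∈ M := by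
  rw [← VonNeumannAlgebra.commutant_commutant M, VonNeumannAlgebra.mem_commutant_iff]
  intro g hg
  rw [VonNeumannAlgebra.mem_commutant_iff] at hg
  have h2 : Commute h g := hg h h1
  have h3 : Commute (CFC.sqrt h) g := h2.cfcₙ_nnreal NNReal.sqrt
  exact h3.symm

theorem vn_isClosed (N : VonNeumannAlgebra H) :
    IsClosed ((N.toStarSubalgebra : StarSubalgebra ℂ (H →L[ℂ] H)) : Set (H →L[ℂ] H)) := by
  have h : ((N.toStarSubalgebra : StarSubalgebra ℂ (H →L[ℂ] H)) : Set (H →L[ℂ] H)) =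
      ⋂ t ∈ Set.centralizer (N : Set (H →L[ℂ] H)), {x | t * x = x * t} := by
    ext x
    simp only [Set.mem_iInter]
    constructor
    · intro hz t ht
      exact (ht x hz).symm
    · intro hz
      have h1 : x ∈ Set.centralizer (Set.centralizer (N : Set (H →L[ℂ] H))) := fun t ht => hz t ht
      rw [VonNeumannAlgebra.centralizer_centralizer] at h1
      exact h1
  rw [h]
  exact isClosed_biInter fun t _ => isClosed_eq (by fun_prop) (by fun_prop)

/-- commuting with the unitaries is commuting with the algebra -/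
theorem comm_of_unitaries (N : VonNeumannAlgebra H) (x : H →L[ℂ] H)
    (hx : ∀ u ∈ unitary (H →L[ℂ] H), u ∈ N → x * u = u * x) : ∀ a ∈ N, x * a = a * x := by
  let S : Submodule ℂ (H →L[ℂ] H) :=
    { carrier := {a | x * a = a * x}
      add_mem' := fun {a b} ha hb => by
        show x * (a + b) = (a + b) * x
        rw [mul_add, add_mul]
        exact congrArg₂ _ ha hb
      zero_mem' := by
        show x * 0 = 0 * x
        rw [mul_zero, zero_mul]
      smul_mem' := fun c a ha => by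
        show x * (c • a) = (c • a) * x
        rw [mul_smul_comm, smul_mul_assoc]
        exact congrArg _ ha }
  let D : StarSubalgebra ℂ (H →L[ℂ] H) := N.toStarSubalgebra
  let _inst : CStarAlgebra D := StarSubalgebra.cstarAlgebra D (h_closed := vn_isClosed N)
  have h1 := CStarAlgebra.span_unitary (A := D)
  intro a ha
  have h2 : (⟨a, ha⟩ : D) ∈ Submodule.span ℂ (unitary D : Set D) := by rw [h1]; trivial
  have h3 : Submodule.span ℂ (unitary D : Set D) ≤ S.comap D.subtype.toAlgHom.toLinearMap := by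
    rw [Submodule.span_le]
    intro u hu
    have hu' := Unitary.mem_iff.1 hu
    exact hx _ (Unitary.mem_iff.2 ⟨congrArg Subtype.val hu'.1, congrArg Subtype.val hu'.2⟩) u.2
  exact h3 h2

/-! ### normal functionals -/

theorem summable_bd {s t : ℕ → H} (hs : Summable fun n => ‖s n‖ ^ 2) (ht : Summable fun n => ‖t n‖ ^ 2)
    (R : ℝ) (hR : 0 ≤ R) : Summable fun n => ‖t n‖ * (R * ‖s n‖) := by
  have h := ((hs.add ht).mul_left (R / 2))
  refine Summable.of_nonneg_of_le (fun n => by positivity) (fun n => ?_) h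
  nlinarith [sq_nonneg (‖s n‖ - ‖t n‖)]

theorem term_bd (t s : H) (x : H →L[ℂ] H) (R : ℝ) (hx : ‖x‖ ≤ R) :
    ‖⟪t, x s⟫_ℂ‖ ≤ ‖t‖ * (R * ‖s‖) := by
  refine (norm_inner_le_norm _ _).trans ?_
  have h1 := x.le_opNorm s
  have h2 : ‖x‖ * ‖s‖ ≤ R * ‖s‖ := by gcongr
  gcongr
  exact h1.trans h2

theorem NormalOn.sm {s t : ℕ → H} (hs : Summable fun n => ‖s n‖ ^ 2)
    (ht : Summable fun n => ‖t n‖ ^ 2) (x : H →L[ℂ] H) : Summable fun n => ⟪t n, x (s n)⟫_ℂ :=
  Summable.of_norm_bounded (summable_bd hs ht ‖x‖ (norm_nonneg _)) (fun n => term_bd _ _ x _ le_rfl)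

theorem NormalOn.add {M : VonNeumannAlgebra H} {f : (H →L[ℂ] H) → ℂ} (hf : NormalOn M f)
    {x y : H →L[ℂ] H} (hx : x ∈ M) (hy : y ∈ M) : f (x + y) = f x + f y := by
  obtain ⟨s, t, hs, ht, h⟩ := hf
  rw [h x hx, h y hy, h (x + y) (add_mem hx hy), ← (NormalOn.sm hs ht x).tsum_add (NormalOn.sm hs ht y)]
  refine tsum_congr fun n => ?_
  rw [add_apply, inner_add_right]

theorem NormalOn.smul {M : VonNeumannAlgebra H} {f : (H →L[ℂ] H) → ℂ} (hf : NormalOn M f)
    {x : H →L[ℂ] H} (c : ℂ) (hx : x ∈ M) : f (c • x) = c * f x := by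
  obtain ⟨s, t, hs, ht, h⟩ := hf
  rw [h x hx, h (c • x) (smul_mem_vn M c hx), ← tsum_mul_left]
  refine tsum_congr fun n => ?_
  rw [smul_apply, inner_smul_right]

theorem NormalOn.tendsto {M : VonNeumannAlgebra H} {f : (H →L[ℂ] H) → ℂ} (hf : NormalOn M f)
    {F : Filter ℕ} {y : ℕ → (H →L[ℂ] H)} {w : H →L[ℂ] H} {R : ℝ} (hR : ∀ i, ‖y i‖ ≤ R)
    (hy : ∀ i, y i ∈ M) (hw : w ∈ M) (hl : WLim F y w) :
    Tendsto (fun i => f (y i)) F (𝓝 (f w)) := by
  obtain ⟨s, t, hs, ht, h⟩ := hf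
  have hR0 : 0 ≤ R := (norm_nonneg _).trans (hR 0)
  rw [h w hw]
  simp only [fun i => h (y i) (hy i)]
  exact tendsto_tsum_of_dominated_convergence (summable_bd hs ht R hR0) (fun k => hl (s k) (t k))
    (Filter.Eventually.of_forall fun i k => term_bd _ _ _ _ (hR i))


/-! ### weak limits -/

theorem wlim_mul_left {F : Filter ℕ} {z : ℕ → (H →L[ℂ] H)} {w : H →L[ℂ] H} (h : WLim F z w)
    (a : H →L[ℂ] H) : WLim F (fun i => star a * z i) (star a * w) := by
  intro ξ η
  have h1 := h ξ (a η)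
  have e : ∀ v : H →L[ℂ] H, ⟪η, (star a * v) ξ⟫_ℂ = ⟪a η, v ξ⟫_ℂ := fun v => by
    show ⟪η, (ContinuousLinearMap.adjoint a) (v ξ)⟫_ℂ = _
    rw [ContinuousLinearMap.adjoint_inner_right]
  simp only [e]
  exact h1

theorem wlim_star_mul {F : Filter ℕ} {z : ℕ → (H →L[ℂ] H)} {w : H →L[ℂ] H} (h : WLim F z w)
    (a : H →L[ℂ] H) : WLim F (fun i => star (z i) * a) (star w * a) := by
  intro ξ η
  have h1 := (h η (a ξ)).star
  have e : ∀ v : H →L[ℂ] H, ⟪η, (star v * a) ξ⟫_ℂ = star ⟪a ξ, v η⟫_ℂ := fun v => by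
    show ⟪η, (ContinuousLinearMap.adjoint v) (a ξ)⟫_ℂ = _
    rw [ContinuousLinearMap.adjoint_inner_right]
    exact (inner_conj_symm _ _).symm
  simp only [e]
  exact h1

/-! ### the functional `φ y = t (E y)` -/

section main
variable {N M : VonNeumannAlgebra H} {E : (H →L[ℂ] H) → (H →L[ℂ] H)} {t : (H →L[ℂ] H) → ℂ}

theorem phi_add (hE : IsNCE N M E) (ht : IsTrace N t) {x y : H →L[ℂ] H} (hx : x ∈ M) (hy : y ∈ M) :
    t (E (x + y)) = t (E x) + t (E y) := by
  rw [hE.add x hx y hy, NormalOn.add ht.normal (hE.mem x hx) (hE.mem y hy)]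

theorem phi_smul (hE : IsNCE N M E) (ht : IsTrace N t) {x : H →L[ℂ] H} (c : ℂ) (hx : x ∈ M) :
    t (E (c • x)) = c * t (E x) := by
  rw [hE.smul c x hx, NormalOn.smul ht.normal c (hE.mem x hx)]

theorem phi_tendsto (hE : IsNCE N M E) (ht : IsTrace N t) (hc : ∀ x ∈ M, ‖E x‖ ≤ ‖x‖)
    {F : Filter ℕ} {y : ℕ → (H →L[ℂ] H)} {w : H →L[ℂ] H} {R : ℝ} (hR : ∀ i, ‖y i‖ ≤ R)
    (hy : ∀ i, y i ∈ M) (hw : w ∈ M) (hl : WLim F y w) :
    Tendsto (fun i => t (E (y i))) F (𝓝 (t (E w))) := by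
  refine NormalOn.tendsto ht.normal (R := R) (fun i => (hc _ (hy i)).trans (hR i))
    (fun i => hE.mem _ (hy i)) (hE.mem w hw) ?_
  intro ξ η
  exact NormalOn.tendsto (hE.normal ξ η) hR hy hw hl

/-- square root decomposition of `E (star y * y)` -/
theorem exists_root (hE : IsNCE N M E) {y : H →L[ℂ] H} (hy : y ∈ M) :
    ∃ r ∈ N, star r * r = E (star y * y) := by
  have hyy : star y * y ∈ M := mul_mem (star_mem hy) hy
  have hp : (star y * y).IsPositive := by
    rw [← ContinuousLinearMap.nonneg_iff_isPositive]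
    exact star_mul_self_nonneg y
  have hEp := hE.pos _ hyy hp
  rw [← ContinuousLinearMap.nonneg_iff_isPositive] at hEp
  refine ⟨CFC.sqrt (E (star y * y)), sqrt_mem_vn N (hE.mem _ hyy), ?_⟩
  rw [(IsSelfAdjoint.of_nonneg (CFC.sqrt_nonneg _)).star_eq]
  exact CFC.sqrt_mul_sqrt_self _ hEp

/-- the quadratic functional -/
noncomputable def qq (E : (H →L[ℂ] H) → (H →L[ℂ] H)) (t : (H →L[ℂ] H) → ℂ) (y : H →L[ℂ] H) : ℝ :=
  (t (E (star y * y))).re

theorem qq_nonneg (hE : IsNCE N M E) (ht : IsTrace N t) {y : H →L[ℂ] H} (hy : y ∈ M) :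
    0 ≤ qq E t y := by
  obtain ⟨r, hr, hrr⟩ := exists_root hE hy
  unfold qq
  rw [← hrr]
  exact ht.pos r hr

theorem qq_faithful (hE : IsNCE N M E) (ht : IsTrace N t) {y : H →L[ℂ] H} (hy : y ∈ M)
    (h : qq E t y ≤ 0) : E (star y * y) = 0 := by
  obtain ⟨r, hr, hrr⟩ := exists_root hE hy
  unfold qq at h
  rw [← hrr] at h
  rw [← hrr, ht.faithful r hr h, mul_zero]

theorem qq_ge (hE : IsNCE N M E) (ht : IsTrace N t) {y w : H →L[ℂ] H} (hy : y ∈ M) (hw : w ∈ M) :
    (t (E (star w * y))).re + (t (E (star y * w))).re - qq E t w ≤ qq E t y := by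
  have h1 := qq_nonneg hE ht (sub_mem hy hw)
  have e : star (y - w) * (y - w) = star y * y + (-1 : ℂ) • (star y * w) + (-1 : ℂ) • (star w * y) +
      star w * w := by
    rw [star_sub, sub_mul, mul_sub, mul_sub, neg_smul, neg_smul, one_smul, one_smul]
    abel
  have m1 : star y * y ∈ M := mul_mem (star_mem hy) hy
  have m2 : star y * w ∈ M := mul_mem (star_mem hy) hw
  have m3 : star w * y ∈ M := mul_mem (star_mem hw) hy
  have m4 : star w * w ∈ M := mul_mem (star_mem hw) hw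
  unfold qq at h1 ⊢
  rw [e, phi_add hE ht (add_mem (add_mem m1 (smul_mem_vn M _ m2)) (smul_mem_vn M _ m3)) m4,
    phi_add hE ht (add_mem m1 (smul_mem_vn M _ m2)) (smul_mem_vn M _ m3),
    phi_add hE ht m1 (smul_mem_vn M _ m2), phi_smul hE ht _ m2, phi_smul hE ht _ m3] at h1
  simp only [Complex.add_re, neg_one_mul, Complex.neg_re] at h1
  linarith

theorem qq_par (hE : IsNCE N M E) (ht : IsTrace N t) {y w : H →L[ℂ] H} (hy : y ∈ M) (hw : w ∈ M) :
    qq E t ((1 / 2 : ℂ) • (y + w)) + qq E t ((1 / 2 : ℂ) • (y - w)) = (qq E t y + qq E t w) / 2 := by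
  have m1 : star y * y ∈ M := mul_mem (star_mem hy) hy
  have m4 : star w * w ∈ M := mul_mem (star_mem hw) hw
  have hp : (1 / 2 : ℂ) • (y + w) ∈ M := smul_mem_vn M _ (add_mem hy hw)
  have hm : (1 / 2 : ℂ) • (y - w) ∈ M := smul_mem_vn M _ (sub_mem hy hw)
  have mp : star ((1 / 2 : ℂ) • (y + w)) * ((1 / 2 : ℂ) • (y + w)) ∈ M := mul_mem (star_mem hp) hp
  have mm : star ((1 / 2 : ℂ) • (y - w)) * ((1 / 2 : ℂ) • (y - w)) ∈ M := mul_mem (star_mem hm) hm
  have hstar : star (1 / 2 : ℂ) = 1 / 2 := by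
    rw [star_div₀, star_one]
    congr 1
    exact Complex.conj_ofNat 2
  have e : star ((1 / 2 : ℂ) • (y + w)) * ((1 / 2 : ℂ) • (y + w)) +
      star ((1 / 2 : ℂ) • (y - w)) * ((1 / 2 : ℂ) • (y - w)) =
      (1 / 2 : ℂ) • (star y * y + star w * w) := by
    rw [star_smul, star_smul, hstar, star_add, star_sub]
    simp only [smul_mul_assoc, mul_smul_comm, smul_smul, ← smul_add]
    have : (star y + star w) * (y + w) + (star y - star w) * (y - w) =
        (2 : ℂ) • (star y * y + star w * w) := by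
      rw [two_smul]
      noncomm_ring
    rw [this, smul_smul]
    norm_num
  have h1 : t (E (star ((1 / 2 : ℂ) • (y + w)) * ((1 / 2 : ℂ) • (y + w)))) +
      t (E (star ((1 / 2 : ℂ) • (y - w)) * ((1 / 2 : ℂ) • (y - w)))) =
      (1 / 2 : ℂ) * (t (E (star y * y)) + t (E (star w * w))) := by
    rw [← phi_add hE ht mp mm, e, phi_smul hE ht _ (add_mem m1 m4), phi_add hE ht m1 m4]
  have h2 := congrArg Complex.re h1
  unfold qq
  rw [Complex.add_re] at h2
  rw [h2]
  have : (1 / 2 : ℂ) = ((1 / 2 : ℝ) : ℂ) := by push_cast; rfl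
  rw [this, Complex.re_ofReal_mul, Complex.add_re]
  ring

theorem qq_conj (hNM : ∀ a ∈ N, a ∈ M) (hE : IsNCE N M E) (ht : IsTrace N t) {y u : H →L[ℂ] H}
    (hy : y ∈ M) (hu : u ∈ unitary (H →L[ℂ] H)) (huN : u ∈ N) :
    qq E t (u * y * star u) = qq E t y := by
  have m1 : star y * y ∈ M := mul_mem (star_mem hy) hy
  have hus : star u * u = 1 := (Unitary.mem_iff.1 hu).1
  have e : star (u * y * star u) * (u * y * star u) = u * (star y * y) * star u := by
    rw [star_mul, star_mul, star_star]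
    calc u * (star y * star u) * (u * y * star u) = u * star y * (star u * u) * y * star u := by
          noncomm_ring
      _ = _ := by rw [hus]; noncomm_ring
  unfold qq
  rw [e, hE.bimod u huN (star u) (star_mem huN) _ m1]
  have h1 := ht.comm (u * E (star y * y)) (mul_mem huN (hE.mem _ m1)) (star u) (star_mem huN)
  rw [h1, ← mul_assoc, hus, one_mul]

theorem p_FIN (h1 : S_CPT) (h2 : S_KSET) (h3 : S_LSC) (h4 : S_FAITH) : S_FIN := by
  intro H _ _ _ N M E t hNM hirr hE ht x hx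
  obtain ⟨hxK, hK, hconv, hunit, hcl⟩ := h2 H N M hNM x hx
  obtain ⟨hc, _⟩ := h3 H N M E hNM hE
  have hbdd : BddBelow (qq E t '' KN N x) := ⟨0, by
    rintro _ ⟨z, hz, rfl⟩
    exact qq_nonneg hE ht (hK z hz).1⟩
  have hne : (qq E t '' KN N x).Nonempty := ⟨_, x, hxK, rfl⟩
  set c := sInf (qq E t '' KN N x) with hcdef
  have hcle : ∀ z ∈ KN N x, c ≤ qq E t z := fun z hz => csInf_le hbdd ⟨z, hz, rfl⟩
  have hseq : ∀ n : ℕ, ∃ z ∈ KN N x, qq E t z < c + 1 / ((n : ℝ) + 1) := by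
    intro n
    obtain ⟨_, ⟨z, hz, rfl⟩, hlt⟩ := exists_lt_of_csInf_lt hne
      (show sInf (qq E t '' KN N x) < c + 1 / ((n : ℝ) + 1) by
        have : (0 : ℝ) < 1 / ((n : ℝ) + 1) := by positivity
        linarith)
    exact ⟨z, hz, hlt⟩
  choose z hzK hzc using hseq
  set U : Ultrafilter ℕ := Ultrafilter.of atTop with hU
  obtain ⟨w, hwR, hwl⟩ := (h1 H ℕ U z).1 ‖x‖ (fun i => (hK _ (hzK i)).2)
  have hwK : w ∈ KN N x := hcl ℕ U z w hzK hwl
  have hwM : w ∈ M := (hK w hwK).1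
  have hzM : ∀ i, z i ∈ M := fun i => (hK _ (hzK i)).1
  have hR : ∀ i, ‖z i‖ ≤ ‖x‖ := fun i => (hK _ (hzK i)).2
  -- lower semicontinuity
  have hqw : qq E t w ≤ c := by
    have t1 : Tendsto (fun i => t (E (star w * z i))) (U : Filter ℕ) (𝓝 (t (E (star w * w)))) := by
      refine phi_tendsto hE ht hc (R := ‖w‖ * ‖x‖) (fun i => ?_)
        (fun i => mul_mem (star_mem hwM) (hzM i)) (mul_mem (star_mem hwM) hwM) (wlim_mul_left hwl w)
      refine (norm_mul_le _ _).trans ?_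
      rw [norm_star]
      gcongr
      exact hR i
    have t2 : Tendsto (fun i => t (E (star (z i) * w))) (U : Filter ℕ) (𝓝 (t (E (star w * w)))) := by
      refine phi_tendsto hE ht hc (R := ‖x‖ * ‖w‖) (fun i => ?_)
        (fun i => mul_mem (star_mem (hzM i)) hwM) (mul_mem (star_mem hwM) hwM) (wlim_star_mul hwl w)
      refine (norm_mul_le _ _).trans ?_
      rw [norm_star]
      gcongr
      exact hR i
    have t3 : Tendsto (fun i => (t (E (star w * z i))).re + (t (E (star (z i) * w))).re - qq E t w)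
        (U : Filter ℕ) (𝓝 ((t (E (star w * w))).re + (t (E (star w * w))).re - qq E t w)) :=
      (((Complex.continuous_re.tendsto _).comp t1).add ((Complex.continuous_re.tendsto _).comp t2)).sub
        tendsto_const_nhds
    have t4 : Tendsto (fun i : ℕ => c + 1 / ((i : ℝ) + 1)) (U : Filter ℕ) (𝓝 (c + 0)) :=
      (tendsto_const_nhds.add tendsto_one_div_add_atTop_nhds_zero_nat).mono_left (Ultrafilter.of_le atTop)
    have t5 := le_of_tendsto_of_tendsto' t3 t4 (fun i => (qq_ge hE ht (hzM i) hwM).trans (hzc i).le)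
    unfold qq at t5 ⊢
    linarith
  -- uniqueness
  have huniq : ∀ w' ∈ KN N x, qq E t w' ≤ c → w' = w := by
    intro w' hw' hq
    have hwM' := (hK w' hw').1
    have hmid : (1 / 2 : ℂ) • (w' + w) ∈ KN N x := by
      have := hconv hw' hwK (a := 1 / 2) (b := 1 / 2) (by norm_num) (by norm_num) (by norm_num)
      have e : (1 / 2 : ℂ) • (w' + w) = (1 / 2 : ℝ) • w' + (1 / 2 : ℝ) • w := by
        rw [← smul_add]
        have : (1 / 2 : ℂ) = ((1 / 2 : ℝ) : ℂ) := by push_cast; rfl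
        rw [this, Complex.coe_smul]
      rw [e]
      exact this
    have h5 := hcle _ hmid
    have h6 := qq_par hE ht hwM' hwM
    have h7 : qq E t ((1 / 2 : ℂ) • (w' - w)) ≤ 0 := by linarith
    have hm : (1 / 2 : ℂ) • (w' - w) ∈ M := smul_mem_vn M _ (sub_mem hwM' hwM)
    have h8 := h4 H N M E hNM hirr hE _ hm (qq_faithful hE ht hm h7)
    have h9 : w' - w = 0 := by
      rcases smul_eq_zero.1 h8 with h | h
      · norm_num at h
      · exact h
    exact sub_eq_zero.1 h9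
  -- invariance
  have hinv : ∀ u ∈ unitary (H →L[ℂ] H), u ∈ N → w * u = u * w := by
    intro u hu huN
    have h5 := huniq _ (hunit u hu huN w hwK) (by rw [qq_conj hNM hE ht hwM hu huN]; exact hqw)
    have hus : star u * u = 1 := (Unitary.mem_iff.1 hu).1
    calc w * u = (u * w * star u) * u := by rw [h5]
      _ = u * w * (star u * u) := by noncomm_ring
      _ = u * w := by rw [hus, mul_one]
  obtain ⟨k, hk⟩ := hirr w hwM (comm_of_unitaries N w hinv)
  exact ⟨k, hk ▸ hwK⟩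

end main

end Pool.Agent.W699.WD
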